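import Pool.Agent.R23.TT.Stm

set_option autoImplicit false

namespace Pool.Agent.R15.TT

open Pool.Agent.R23.TT

theorem t_FIN4 : S_FIN4 := by
  intro a b r ha hr hrb hb hra
  obtain ⟨u, hu⟩ : ∃ u, b = r + u := ⟨b - r, by ring⟩
  obtain ⟨w, hw⟩ : ∃ w, a = r + w := ⟨a - r, by ring⟩
  subst hu hw
  have hu : 0 ≤ u := by linarith
  have hw : 0 ≤ w := by linarith
  have hc : 0 ≤ r + w - u := by linarith
  nlinarith [mul_nonneg hr hu, mul_nonneg hr hw, mul_nonneg hu hw,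
    mul_nonneg (mul_nonneg hr hu) hw, mul_nonneg hr (sq_nonneg (u - w)),
    mul_nonneg hr (sq_nonneg (u)), mul_nonneg hr (sq_nonneg w), mul_nonneg hw (sq_nonneg (u-w)),
    mul_nonneg hu (sq_nonneg (u-w)), mul_nonneg hc (sq_nonneg u),
    mul_nonneg hc (sq_nonneg (u - w)), mul_nonneg hc (sq_nonneg w),
    mul_nonneg hc (mul_nonneg hu hw)]

theorem t_FIN6 : S_FIN6 := by
  intro a b r ha hr hrb hra
  obtain ⟨v, hv⟩ : ∃ v, a = r + v := ⟨a - r, by ring⟩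
  subst hv
  obtain ⟨u, hu⟩ : ∃ u, b = r + (r + v) + u := ⟨b - r - (r + v), by ring⟩
  subst hu
  have hu : 0 ≤ u := by linarith
  have hv : 0 ≤ v := by linarith
  rw [← sub_nonneg]
  ring_nf
  positivity

theorem t_FIN3 : S_FIN3 := by
  intro a b r ha hr hrb hb har hq
  obtain ⟨u, hu⟩ : ∃ u, b = r + u := ⟨b - r, by ring⟩
  obtain ⟨v, hv⟩ : ∃ v, a = r - v := ⟨r - a, by ring⟩
  subst hu hv
  have hu : 0 ≤ u := by linarith
  have hv : 0 ≤ v := by linarith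
  have hd : 0 ≤ r - v - u := by linarith
  nlinarith [mul_nonneg hd hu, mul_nonneg hd hv, mul_nonneg hu hv,
    mul_nonneg (mul_nonneg hd hu) hv, mul_nonneg hd (sq_nonneg (u - v)),
    mul_nonneg hd (sq_nonneg (u)), mul_nonneg hd (sq_nonneg v), mul_nonneg hv (sq_nonneg (u-v)),
    mul_nonneg hu (sq_nonneg (u-v)), mul_nonneg hd (sq_nonneg (u - 2 * v)),
    mul_nonneg hv (sq_nonneg (u-2*v)), mul_nonneg hu (sq_nonneg (u-2*v)),
    mul_nonneg hu (sq_nonneg u), mul_nonneg hu (sq_nonneg v), mul_nonneg hv (sq_nonneg u),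
    mul_nonneg hv (sq_nonneg v)]

end Pool.Agent.R15.TT
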