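import Pool.Agent.R23.TT.Stm

set_option autoImplicit false

namespace Pool.Agent.R15.TT

open Pool.Agent.R23.TT

theorem tri_inj {n : ℕ} (a b c a' b' c' : Fin n) (h1 : a < b) (h2 : b < c) (h1' : a' < b')
    (h2' : b' < c') (h : ({a, b, c} : Finset (Fin n)) = {a', b', c'}) :
    a = a' ∧ b = b' ∧ c = c' := by
  have m1 : a ∈ ({a', b', c'} : Finset (Fin n)) := h ▸ (by simp)
  have m2 : b ∈ ({a', b', c'} : Finset (Fin n)) := h ▸ (by simp)
  have m3 : c ∈ ({a', b', c'} : Finset (Fin n)) := h ▸ (by simp)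
  have m4 : a' ∈ ({a, b, c} : Finset (Fin n)) := h.symm ▸ (by simp)
  have m5 : b' ∈ ({a, b, c} : Finset (Fin n)) := h.symm ▸ (by simp)
  have m6 : c' ∈ ({a, b, c} : Finset (Fin n)) := h.symm ▸ (by simp)
  simp only [Finset.mem_insert, Finset.mem_singleton, Fin.ext_iff] at m1 m2 m3 m4 m5 m6 ⊢
  rw [Fin.lt_def] at h1 h2 h1' h2'
  omega

theorem t_TRI : S_TRI := by
  intro n T hT
  symm
  refine Finset.card_bij (fun p _ => ({p.1, p.2.1, p.2.2} : Finset (Fin n))) ?_ ?_ ?_
  · intro p hp
    simp only [Tri, Finset.mem_filter] at hp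
    exact hp.2.2.2
  · rintro ⟨a, b, c⟩ hp ⟨a', b', c'⟩ hq h
    simp only [Tri, Finset.mem_filter] at hp hq
    obtain ⟨e1, e2, e3⟩ := tri_inj a b c a' b' c' hp.2.1 hp.2.2.1 hq.2.1 hq.2.2.1 h
    rw [e1, e2, e3]
  · intro t ht
    have hc := hT t ht
    have hi := Finset.image_orderEmbOfFin_univ t hc
    have hu : (Finset.univ : Finset (Fin 3)) = {0, 1, 2} := by decide
    rw [hu, Finset.image_insert, Finset.image_insert, Finset.image_singleton] at hi
    refine ⟨(t.orderEmbOfFin hc 0, t.orderEmbOfFin hc 1, t.orderEmbOfFin hc 2), ?_, hi⟩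
    simp only [Tri, Finset.mem_filter, Finset.mem_univ, true_and]
    refine ⟨(t.orderEmbOfFin hc).strictMono (by decide),
      (t.orderEmbOfFin hc).strictMono (by decide), ?_⟩
    rw [hi]
    exact ht

theorem t_RUN : S_RUN := by
  classical
  intro n a hn
  set A : Bool := a ⟨n - 1, by omega⟩ with hA
  have hex : ∃ m : ℕ, m < n ∧ ∀ j : Fin n, m ≤ j.val → a j = A := by
    refine ⟨n - 1, by omega, fun j hj => ?_⟩
    have : j = ⟨n - 1, by omega⟩ := by
      apply Fin.ext
      have := j.isLt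
      simp only
      omega
    rw [this]
  refine ⟨Nat.find hex, A, (Nat.find_spec hex).1, (Nat.find_spec hex).2, ?_⟩
  by_cases h0 : Nat.find hex = 0
  · exact Or.inl h0
  · right
    have hlt := (Nat.find_spec hex).1
    refine ⟨⟨Nat.find hex - 1, by omega⟩, by simp only; omega, ?_⟩
    intro hcon
    have hmin := Nat.find_min hex (m := Nat.find hex - 1) (by omega)
    apply hmin
    refine ⟨by omega, fun j hj => ?_⟩
    by_cases hjm : Nat.find hex ≤ j.val
    · exact (Nat.find_spec hex).2 j hjm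
    · have : j = ⟨Nat.find hex - 1, by omega⟩ := by
        apply Fin.ext
        simp only
        omega
      rw [this]
      exact hcon

end Pool.Agent.R15.TT
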