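import Pool.Agent.R23.TT.Stm

set_option autoImplicit false

namespace Pool.Agent.R15.TT

open Pool.Agent.R23.TT Finset

theorem card4 {n : ℕ} {w x y z : Fin n} (h1 : w < x) (h2 : x < y) (h3 : y < z) :
    ({w, x, y, z} : Finset (Fin n)).card = 4 := by
  rw [Fin.lt_def] at h1 h2 h3
  rw [Finset.card_insert_of_notMem (by
      simp only [Finset.mem_insert, Finset.mem_singleton, Fin.ext_iff]; omega),
    Finset.card_insert_of_notMem (by
      simp only [Finset.mem_insert, Finset.mem_singleton, Fin.ext_iff]; omega),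
    Finset.card_insert_of_notMem (by
      simp only [Finset.mem_singleton, Fin.ext_iff]; omega), Finset.card_singleton]

theorem sub4 {n : ℕ} {w x y z : Fin n} (h1 : w < x) (h2 : x < y) (h3 : y < z)
    {t : Finset (Fin n)} (ht : t ⊆ {w, x, y, z}) (hc : t.card = 3) :
    t = {x, y, z} ∨ t = {w, y, z} ∨ t = {w, x, z} ∨ t = {w, x, y} := by
  have hQ := card4 h1 h2 h3
  rw [Fin.lt_def] at h1 h2 h3
  have hone : (({w, x, y, z} : Finset (Fin n)) \ t).card = 1 := by
    have := Finset.card_sdiff_add_card_eq_card ht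
    omega
  obtain ⟨e, he⟩ := Finset.card_eq_one.1 hone
  have hmem : ∀ u, u ∈ t ↔ u ∈ ({w, x, y, z} : Finset (Fin n)) ∧ u ≠ e := by
    intro u
    constructor
    · intro hu
      refine ⟨ht hu, ?_⟩
      rintro rfl
      have h5 : u ∈ ({w, x, y, z} : Finset (Fin n)) \ t := by
        rw [he]; exact Finset.mem_singleton_self u
      exact (Finset.mem_sdiff.1 h5).2 hu
    · rintro ⟨hu, hne⟩
      by_contra hcon
      have h5 : u ∈ ({w, x, y, z} : Finset (Fin n)) \ t := Finset.mem_sdiff.2 ⟨hu, hcon⟩
      rw [he] at h5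
      exact hne (Finset.mem_singleton.1 h5)
  have heQ : e ∈ ({w, x, y, z} : Finset (Fin n)) := by
    have h5 : e ∈ ({w, x, y, z} : Finset (Fin n)) \ t := by
      rw [he]; exact Finset.mem_singleton_self e
    exact (Finset.mem_sdiff.1 h5).1
  simp only [Finset.mem_insert, Finset.mem_singleton] at heQ
  rcases heQ with rfl | rfl | rfl | rfl
  · left; ext u; rw [hmem]
    simp only [Finset.mem_insert, Finset.mem_singleton, ne_eq, Fin.ext_iff]; omega
  · right; left; ext u; rw [hmem]
    simp only [Finset.mem_insert, Finset.mem_singleton, ne_eq, Fin.ext_iff]; omega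
  · right; right; left; ext u; rw [hmem]
    simp only [Finset.mem_insert, Finset.mem_singleton, ne_eq, Fin.ext_iff]; omega
  · right; right; right; ext u; rw [hmem]
    simp only [Finset.mem_insert, Finset.mem_singleton, ne_eq, Fin.ext_iff]; omega

theorem pairs_card {α : Type} [LinearOrder α] (V : Finset α) :
    2 * ((V ×ˢ V).filter (fun p => p.1 < p.2)).card + V.card = V.card * V.card := by
  classical
  have h1 : ((V ×ˢ V).filter (fun p => p.2 < p.1)).card
      = ((V ×ˢ V).filter (fun p => p.1 < p.2)).card := by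
    refine Finset.card_bij (fun p _ => (p.2, p.1)) ?_ ?_ ?_
    · intro p hp
      simp only [Finset.mem_filter, Finset.mem_product] at hp ⊢
      exact ⟨⟨hp.1.2, hp.1.1⟩, hp.2⟩
    · intro p _ q _ h
      simp only [Prod.mk.injEq] at h
      exact Prod.ext h.2 h.1
    · intro p hp
      simp only [Finset.mem_filter, Finset.mem_product] at hp
      refine ⟨(p.2, p.1), ?_, rfl⟩
      simp only [Finset.mem_filter, Finset.mem_product]
      exact ⟨⟨hp.1.2, hp.1.1⟩, hp.2⟩
  have h2 : Disjoint ((V ×ˢ V).filter (fun p => p.1 < p.2))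
      ((V ×ˢ V).filter (fun p => p.2 < p.1)) := by
    rw [Finset.disjoint_filter]
    intro p _ h h'
    exact absurd h' (not_lt.2 h.le)
  have h3 : ((V ×ˢ V).filter (fun p => p.1 < p.2)) ∪ ((V ×ˢ V).filter (fun p => p.2 < p.1))
      = V.offDiag := by
    ext p
    simp only [Finset.mem_union, Finset.mem_filter, Finset.mem_product, Finset.mem_offDiag]
    constructor
    · rintro (⟨⟨h, h'⟩, h''⟩ | ⟨⟨h, h'⟩, h''⟩)
      · exact ⟨h, h', h''.ne⟩
      · exact ⟨h, h', h''.ne'⟩
    · rintro ⟨h, h', h''⟩
      rcases lt_or_gt_of_ne h'' with h5 | h5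
      · exact Or.inl ⟨⟨h, h'⟩, h5⟩
      · exact Or.inr ⟨⟨h, h'⟩, h5⟩
  have h4 := Finset.card_union_of_disjoint h2
  rw [h3, Finset.offDiag_card, h1] at h4
  have h5 : V.card ≤ V.card * V.card := Nat.le_mul_self _
  omega

theorem card_tail (n m : ℕ) :
    ((univ : Finset (Fin n)).filter (fun j => m ≤ j.val)).card = n - m := by
  have h : ((univ : Finset (Fin n)).filter (fun j => m ≤ j.val)).map Fin.valEmbedding
      = Finset.Ico m n := by
    ext i
    simp only [Finset.mem_map, Finset.mem_filter, Finset.mem_univ, true_and, Finset.mem_Ico,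
      Fin.valEmbedding_apply]
    constructor
    · rintro ⟨j, hj, rfl⟩
      exact ⟨hj, j.isLt⟩
    · rintro ⟨h1, h2⟩
      exact ⟨⟨i, h2⟩, h1, rfl⟩
  rw [← Finset.card_map Fin.valEmbedding, h, Nat.card_Ico]

theorem t_X2 : S_X2 := by
  classical
  intro n T a m A hO hR
  set V : Finset (Fin n) := univ.filter (fun j => m ≤ j.val) with hV
  set P : Finset (Fin n × Fin n) := (V ×ˢ V).filter (fun p => p.1 < p.2) with hP
  set B : Finset (Fin n) := univ.filter (fun j : Fin n => j.val < m ∧ a j ≠ A) with hB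
  have hmaps : ∀ p ∈ X2 T a m A, p.2 ∈ P := by
    intro p hp
    simp only [X2, Tri, Finset.mem_filter, Finset.mem_univ, true_and] at hp
    simp only [hP, hV, Finset.mem_filter, Finset.mem_product, Finset.mem_univ, true_and]
    have h1 := hp.1.2.1
    rw [Fin.lt_def] at h1
    exact ⟨⟨hp.2.1, by omega⟩, hp.1.2.1⟩
  have hcard := Finset.card_eq_sum_card_fiberwise (f := fun p : Fin n × Fin n × Fin n => p.2)
    (s := X2 T a m A) (t := P) (fun p hp => hmaps p hp)
  have hfib : ∀ q ∈ P, B.card ≤
      ((X2 T a m A).filter (fun p => p.2 = q)).card + 1 := by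
    intro q hq
    simp only [hP, hV, Finset.mem_filter, Finset.mem_product, Finset.mem_univ, true_and] at hq
    obtain ⟨⟨hk, hl⟩, hkl⟩ := hq
    have hsplit : (B.filter (fun b => ({b, q.1, q.2} : Finset (Fin n)) ∈ T)).card +
        (B.filter (fun b => ¬ ({b, q.1, q.2} : Finset (Fin n)) ∈ T)).card = B.card :=
      Finset.card_filter_add_card_filter_not _
    have hle1 : (B.filter (fun b => ({b, q.1, q.2} : Finset (Fin n)) ∈ T)).card ≤
        ((X2 T a m A).filter (fun p => p.2 = q)).card := by
      refine Finset.card_le_card_of_injOn (fun b => (b, q)) ?_ ?_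
      · intro b hb
        have hb' := Finset.mem_coe.1 hb
        simp only [hB, Finset.mem_filter, Finset.mem_univ, true_and] at hb'
        refine Finset.mem_coe.2 ?_
        simp only [X2, Tri, Finset.mem_filter, Finset.mem_univ, true_and, and_true]
        refine ⟨⟨?_, hkl, hb'.2⟩, hk, hb'.1⟩
        rw [Fin.lt_def]
        omega
      · intro b _ b' _ h
        exact (Prod.mk.injEq _ _ _ _ ▸ h).1
    have hle2 : (B.filter (fun b => ¬ ({b, q.1, q.2} : Finset (Fin n)) ∈ T)).card ≤ 1 := by
      rw [Finset.card_le_one]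
      have hmain : ∀ b b' : Fin n, b < b' → b' ∈ B → ({b, q.1, q.2} : Finset (Fin n)) ∉ T →
          ({b', q.1, q.2} : Finset (Fin n)) ∉ T → False := by
        intro b b' hbb hb' hn hn'
        simp only [hB, Finset.mem_filter, Finset.mem_univ, true_and] at hb'
        have hb'k : b' < q.1 := by
          rw [Fin.lt_def]
          omega
        obtain ⟨t, htT, htQ⟩ := hO.cov {b, b', q.1, q.2} (card4 hbb hb'k hkl)
        have hAk := hR.tail q.1 hk
        have hAl := hR.tail q.2 hl
        rcases sub4 hbb hb'k hkl htQ (hO.three t htT) with h | h | h | h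
        · exact hn' (h ▸ htT)
        · exact hn (h ▸ htT)
        · have := hO.mono b b' q.2 hbb (hb'k.trans hkl) (h ▸ htT)
          exact hb'.2 (this.trans hAl)
        · have := hO.mono b b' q.1 hbb hb'k (h ▸ htT)
          exact hb'.2 (this.trans hAk)
      intro b hb b' hb'
      rw [Finset.mem_filter] at hb hb'
      by_contra hne
      rcases lt_or_gt_of_ne hne with h | h
      · exact hmain b b' h hb'.1 hb.2 hb'.2
      · exact hmain b' b h hb.1 hb'.2 hb.2
    omega
  have hsum : P.card * B.card ≤ (X2 T a m A).card + P.card := by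
    rw [hcard]
    calc P.card * B.card = ∑ q ∈ P, B.card := by rw [Finset.sum_const, smul_eq_mul]
      _ ≤ ∑ q ∈ P, (((X2 T a m A).filter (fun p => p.2 = q)).card + 1) :=
          Finset.sum_le_sum hfib
      _ = _ := by rw [Finset.sum_add_distrib, Finset.sum_const, smul_eq_mul, mul_one]
  have hPc := pairs_card V
  have hVc : V.card = n - m := card_tail n m
  have hVr : (V.card : ℝ) = (n : ℝ) - m := by
    rw [hVc, Nat.cast_sub hR.lt.le]
  have h1 : (P.card : ℝ) * (be a m A : ℝ) ≤ ((X2 T a m A).card : ℝ) + P.card := by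
    have : (be a m A) = B.card := rfl
    rw [this]
    exact_mod_cast hsum
  have h2 : 2 * (P.card : ℝ) + (V.card : ℝ) = (V.card : ℝ) * V.card := by
    exact_mod_cast hPc
  rw [hVr] at h2
  have h3 : ((n : ℝ) - m) * ((n : ℝ) - m - 1) / 2 = P.card := by linarith
  rw [h3]
  linarith

end Pool.Agent.R15.TT
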