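import Pool.Agent.R23.TT.Stm

set_option autoImplicit false

namespace Pool.Agent.R15.TT

open Pool.Agent.R23.TT Finset

theorem x3_poly (r l al tl X n : ℝ) (hr : 0 < r) (hrn : r ≤ n) (hl : 0 ≤ l) (hal : 0 ≤ al)
    (hX : tl + al * l ≤ X)
    (hT : (r * (r - 1) / 2 - l) * (4 * (r * (r - 1) / 2 - l) - r ^ 2) ≤ 3 * r * tl) :
    r ^ 3 - 9 / 8 * r * (max (r - al) 0) ^ 2 - 20 * n ^ 2 ≤ 6 * X := by
  have hn : r ^ 2 ≤ n ^ 2 := by nlinarith
  have hkey : r * (r ^ 3 - 9 / 8 * r * (max (r - al) 0) ^ 2 - 20 * r ^ 2) ≤ r * (6 * X) := by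
    have h1 : r * (6 * (tl + al * l)) ≤ r * (6 * X) := by
      apply mul_le_mul_of_nonneg_left _ hr.le
      linarith
    refine le_trans ?_ h1
    have hrl : 0 ≤ r * l := mul_nonneg hr.le hl
    have hr3 : 0 ≤ r ^ 3 := by positivity
    have hr2 : 0 ≤ r ^ 2 := by positivity
    rcases le_total r al with h | h
    · rw [max_eq_right (by linarith)]
      have h2 : 0 ≤ (al - r) * (r * l) := mul_nonneg (by linarith) hrl
      nlinarith [sq_nonneg l]
    · rw [max_eq_left (by linarith)]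
      nlinarith [sq_nonneg (l - 3 / 8 * r * (r - al))]
  have h2 := le_of_mul_le_mul_left hkey hr
  linarith

theorem t_X3 (hT : S_TAIL) (hS : S_SPLIT) : S_X3 := by
  classical
  intro n T a m A hO hR
  have hX0 : (0 : ℝ) ≤ 6 * ((X3 T a m A).card : ℝ) := by positivity
  have hn0 : (0 : ℝ) ≤ 20 * (n : ℝ) ^ 2 := by positivity
  have hmn : (m : ℝ) < n := by exact_mod_cast hR.lt
  have hm0 : (0 : ℝ) ≤ m := Nat.cast_nonneg m
  have hal0 : (0 : ℝ) ≤ al a m A := Nat.cast_nonneg _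
  suffices h : ((n : ℝ) - m) ^ 3 - 9 / 8 * ((n : ℝ) - m) * (max (((n : ℝ) - m) - al a m A) 0) ^ 2
      - 20 * (n : ℝ) ^ 2 ≤ 6 * ((X3 T a m A).card : ℝ) by
    rcases le_total (((n : ℝ) - m) ^ 3 - 9 / 8 * ((n : ℝ) - m) *
      (max (((n : ℝ) - m) - al a m A) 0) ^ 2) 0 with h' | h'
    · rw [max_eq_left h']; linarith
    · rw [max_eq_right h']; exact h
  set F : Finset (Fin n) := univ.filter (fun j : Fin n => j.val < m ∧ a j = A) with hF
  have halF : al a m A = F.card := rfl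
  rcases Finset.eq_empty_or_nonempty F with hE | hE
  · have : (al a m A : ℝ) = 0 := by rw [halF, hE]; simp
    rw [this]
    have hr : 0 < (n : ℝ) - m := by linarith
    rw [sub_zero, max_eq_left hr.le]
    have h3 : 0 ≤ ((n : ℝ) - m) ^ 3 := by positivity
    nlinarith
  · obtain ⟨x, hx, hmin⟩ := Finset.exists_min_image F (fun x => lk T m x) hE
    have hxm : x.val < m := by
      rw [hF, Finset.mem_filter] at hx
      exact hx.2.1
    have h1 := hT n T m x hO.cov hO.three hR.lt hxm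
    have h2 := hS n T a m A hR.lt
    have h3 : F.card * lk T m x ≤ ∑ y ∈ F, lk T m y := by
      calc F.card * lk T m x = ∑ _y ∈ F, lk T m x := by rw [Finset.sum_const, smul_eq_mul]
        _ ≤ _ := Finset.sum_le_sum (fun y hy => hmin y hy)
    have h4 : (tl T m : ℝ) + (al a m A : ℝ) * (lk T m x : ℝ) ≤ ((X3 T a m A).card : ℝ) := by
      rw [halF, h2]
      push_cast
      have : ((F.card : ℝ)) * (lk T m x : ℝ) ≤ ((∑ y ∈ F, lk T m y : ℕ) : ℝ) := by
        exact_mod_cast h3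
      push_cast at this
      linarith
    exact x3_poly _ _ _ _ _ _ (by linarith) (by linarith) (Nat.cast_nonneg _) hal0 h4 h1

end Pool.Agent.R15.TT
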